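import Pool.Agent.W2helper22.CU.AltBound
import Pool.Agent.W2helper86.HU.Low3

/-!
# The `k`-clique problem on the subgraphs of an arbitrary host graph

Fix for all `k` and `n` a host graph `H k n` on `n` vertices. The inputs are the subgraphs of the
host; the question is whether they have a clique of `k` vertices. The definitions are in
`Pool/Agent/W2helper22/CU/Model.lean`, `Model2.lean` and `AltDefs.lean`: `cliques H k` (number of
`k`-cliques), `Decides H k C` (the circuit `C` is right on all subgraphs of `H`), `Easy H` (circuits
of size `f k * n ^ o(k)`), `Few H` (at most `f k * n ^ o(k)` cliques), `Many H` (`n ^ Ω(k)`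
cliques), `Separates H k C` (`C` accepts the subgraphs with a `k`-clique and rejects the
`(k - 1)`-colourable ones), `Alternates C D` (at most `D` steps of an increasing chain of inputs
change a NOT gate), `Nesting C h lev` (nesting levels `≤ h` of the NOT gates). Circuits have AND and
OR gates of fan-in two and NOT gates.

* A host with few cliques is easy; a host with many cliques is exactly as hard as the complete
  host, that is, as the `k`-clique problem for all graphs. Proof of the second part: colour the
  vertices of `H K N` with `K` colours such that many `K`-cliques are colourful, pass to a large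
  subset `S` of these tuples whose projections are nearly uniform (a maximum of
  `|S| ^ M / ∏ J |π_J S|`), and choose greedily a set `J` of coordinates to be fixed and a set `W`
  of `k = δ K` coordinates in which the remaining tuples have density `N ^ (- ε k)` in a product of
  sets of size `N ^ Ω(1)`. Then `N ^ (O(ε) k)` random embeddings of the vertices of a graph into
  these sets bring each `k`-tuple into the dense set, and each yields a substitution into the
  circuit for the subgraphs of the host.
* Unconditionally, for every host graph with `M` cliques, circuits with at most `D` alternations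
  need `M / ((D + 1) ^ k polylog M)` gates, and `(k ^ 2 + 1) M + 1` gates without NOT gates are
  sufficient. Proof: pass to a spread link of the set of the cliques, cut the vertices into random
  blocks, fill the blocks one after the other with random `(k - 1)`-colourable subgraphs of the
  host; in most blocks no NOT gate changes, and there a method of approximations whose
  approximators are sets of cliques of the host, closed under the exchange of common parts,
  applies.
* In the terms of the question: on a host with at least `n ^ (c k)` cliques no circuits of size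
  `f k * n ^ o(k)` with fewer than `n ^ (c - ε)` alternations exist. This includes circuits with
  `n ^ (c - ε) - 1` NOT gates that are not nested, with `h (n ^ ((c - ε) / h) - 1)` NOT gates on `h`
  nesting levels, and with `(c - ε) log₂ n` arbitrary NOT gates.
* Random circuits with `O(log n)` NOT gates and fewer than `M ^ (1 - ε)` gates are, on some subgraph
  of the host, right with probability less than `1 / 2 + n ^ (- α)`.
-/

set_option autoImplicit false

namespace Pool.Agent.Results.MP_678664_lc.EveryHost

open Filter Pool.Agent.H540R2 Pool.Agent.W2helper86.KQ Pool.Agent.W2helper22.CU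

open Classical in
/-- (1) If the hosts have at most `f k * n ^ o(k)` cliques then the problem has circuits of size
`f k * n ^ o(k)`. If they have `n ^ Ω(k)` cliques, then it has such circuits if and only if the
`k`-clique problem for all graphs has.
(2) For every `k ≥ 2` there is `A` such that for every graph `H` with `M ≥ 2` cliques of `k`
vertices each circuit with at most `D` alternations that separates the subgraphs with a `k`-clique
from the `(k - 1)`-colourable ones satisfies
`M ≤ A * (D + 1) ^ k * (log M) ^ (2 k - 2) * (size + 1)`; and a circuit without NOT gates of size at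
most `(k ^ 2 + 1) M + 1` decides the problem.
(3) If the hosts have at least `n ^ (c k)` cliques (for all large `k` and, given `k`, all large
`n`), then for `ε > 0` circuits with at most `n ^ (c - ε) - 1` alternations which separate have size
greater than `f k * n ^ g k`, whatever `f` and `g` with `g k / k → 0`.
(4) A circuit with at most `t l` NOT gates of nesting level `l + 1` for all `l < h` has at most
`∏ l, (t l + 1) - 1` alternations, and every circuit with `t` NOT gates has at most `2 ^ t - 1`.
(5) For `0 < δ ≤ 1`, `0 < ε < 1` there is `γ > 0`, and for all `k` with `6 ≤ δ k` there is `α > 0`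
such that for all large `n` and all graphs `H` with `M ≥ n ^ (δ k)` cliques of `k` vertices: each
random circuit whose outcomes have at most `γ log₂ n` NOT gates and at most `M ^ (1 - ε)` gates is
right on some subgraph of `H` with probability less than `1 / 2 + n ^ (- α)`. -/
theorem result :
    (∀ H : ∀ k n : ℕ, SimpleGraph (Fin n),
      (Few H → Easy H) ∧ (Many H → (Easy H ↔ Easy (fun _ _ => ⊤)))) ∧
    (∀ k : ℕ, 2 ≤ k → ∃ A : ℝ, ∀ (n : ℕ) (H : SimpleGraph (Fin n)),
      (∃ C : Circuit (n.choose 2), C.nots = 0 ∧ C.size ≤ (k ^ 2 + 1) * cliques H k + 1 ∧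
        Decides H k C) ∧
      (2 ≤ cliques H k → ∀ (C : Circuit (n.choose 2)) (D : ℕ), Separates H k C →
        Alternates C D → (cliques H k : ℝ) ≤
          A * ((D : ℝ) + 1) ^ k * Real.log (cliques H k) ^ (2 * k - 2) * (C.size + 1))) ∧
    (∀ (H : ∀ k n : ℕ, SimpleGraph (Fin n)) (c ε : ℝ), 0 < c → 0 < ε →
      (∀ᶠ k : ℕ in atTop, ∀ᶠ n : ℕ in atTop, (n : ℝ) ^ (c * k) ≤ cliques (H k n) k) →
      ∀ (f : ℕ → ℕ) (g : ℕ → ℝ), Tendsto (fun k : ℕ => g k / k) atTop (nhds 0) →
        ∀ᶠ k : ℕ in atTop, ∀ᶠ n : ℕ in atTop, ∀ (C : Circuit (n.choose 2)) (D : ℕ),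
          Separates (H k n) k C → Alternates C D → (D : ℝ) + 1 ≤ (n : ℝ) ^ (c - ε) →
            (f k : ℝ) * (n : ℝ) ^ g k < C.size) ∧
    (∀ (N : ℕ) (C : Circuit N), Alternates C (2 ^ C.nots - 1) ∧
      ∀ (h : ℕ) (lev : ℕ → ℕ) (t : ℕ → ℕ), Nesting C h lev →
        (∀ l < h, ((Finset.range C.size).filter (fun g => IsNot C g ∧ lev g = l + 1)).card ≤
          t l) → Alternates C (∏ l ∈ Finset.range h, (t l + 1) - 1)) ∧
    ∀ δ ε : ℝ, 0 < δ → δ ≤ 1 → 0 < ε → ε < 1 → ∃ γ : ℝ, 0 < γ ∧ ∀ k : ℕ, 6 ≤ δ * k →
      ∃ α : ℝ, 0 < α ∧ ∀ᶠ n : ℕ in atTop, ∀ H : SimpleGraph (Fin n),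
        (n : ℝ) ^ (δ * k) ≤ cliques H k → ∀ R : RandCircuit (n.choose 2),
          (∀ o, (2 : ℝ) ^ (R.C o).nots ≤ (n : ℝ) ^ γ ∧
            ((R.C o).size : ℝ) ≤ (cliques H k : ℝ) ^ (1 - ε)) →
          ∃ x, graph x ≤ H ∧ R.prob (Right k k x) < 1 / 2 + (n : ℝ) ^ (-α) := by
  refine ⟨fun H => ⟨few_easy p_triv H, p_general H⟩, fun k hk => ?_, alt_bound,
    fun N C => ⟨alternates_pow C, alternates_of_nesting C⟩,
    Pool.Agent.W2helper86.HU.low_sharp⟩
  obtain ⟨A, hA⟩ := p_fina k hk
  exact ⟨A, fun n H => ⟨p_triv n k H (by omega), hA n H⟩⟩

end Pool.Agent.Results.MP_678664_lc.EveryHost
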