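import Pool.Agent.W2helper57.FAE.Low
import Pool.Agent.W2helper57.FAE.Up

/-!
# Clique detection by circuits whose accepting certificates use few absent edges

The circuits (`Pool.Agent.W2lead.PM.Circuit`) have AND and OR gates of fan-in two, negations only at
the inputs (the absent edges), and a record of the negated inputs that may be used.

* Circuits of size below `n ^ (θ k)` (a finite family, drawn uniformly) which accept graphs without a
  clique of `k` vertices with probability at most `p` accept the isolated clique on a random set of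
  `s` vertices, by means of at most `n ^ (2 - 2 ε)` absent edges of which at most `n ^ (1 - ε)` meet
  the clique, with probability at most `p + n ^ (-α)`, for all `θ < ε ≤ 1`.
* There are circuits of size `7 n ^ 3` that accept only graphs with a clique of `k` vertices, and
  that accept each isolated clique of at least `k` vertices by means of the absent edges at one of
  its vertices.
-/

set_option autoImplicit false

namespace Pool.Agent.Results.MP_678664_lc.FewAbsentEdges

open Finset Filter Pool.Agent.W2lead.PM Pool.Agent.W2helper57.FAE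

open Classical in
theorem result :
    (∀ k s : ℕ, 3 ≤ k → ∀ ε θ : ℝ, 0 < θ → θ < ε → ε ≤ 1 →
      ∃ α : ℝ, 0 < α ∧ ∀ᶠ n : ℕ in atTop, ∀ (R : Type) [Fintype R]
        (C : R → (Sym2 (Fin n) → Bool) → (Sym2 (Fin n) → Bool) → Bool),
        (∀ ρ, ∃ m : ℕ, (m : ℝ) < (n : ℝ) ^ (θ * k) ∧ HasSize m (C ρ)) → ∀ p : ℝ,
        (∀ x, (graph x).CliqueFree k →
          ((univ.filter (fun ρ => Accepts (C ρ) x)).card : ℝ) ≤ p * Fintype.card R) →
        ((univ.filter (fun z : R × Finset (Fin n) => z.2.card = s ∧
          FewAbsent ((n : ℝ) ^ (1 - ε)) ((n : ℝ) ^ (2 - 2 * ε)) (C z.1) z.2)).card : ℝ) ≤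
          (p + (n : ℝ) ^ (-α)) * (Fintype.card R * n.choose s)) ∧
    (∀ n k : ℕ, 1 ≤ k → k ≤ n →
      ∃ f : (Sym2 (Fin n) → Bool) → (Sym2 (Fin n) → Bool) → Bool, HasSize (7 * n ^ 3) f ∧
        (∀ x, Accepts f x → ¬ (graph x).CliqueFree k) ∧
        ∀ K : Finset (Fin n), k ≤ K.card → ∃ S : Finset (Sym2 (Fin n)),
          S.card ≤ n - K.card ∧ (∃ v ∈ K, ∀ e ∈ S, v ∈ e) ∧ AcceptsBy f S (lone K)) := by
  refine ⟨fun k s hk ε θ h1 h2 h3 => lower hk s h1 h2 h3, fun n k hk1 hk => ?_⟩
  exact ⟨whole n k, whole_size k hk1 hk, whole_sound k hk1, whole_complete k hk1⟩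

end Pool.Agent.Results.MP_678664_lc.FewAbsentEdges
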