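import Pool.Agent.W2helper86.KQ.Final

/-!
# Clique detection in time `f(k) n^{o(k)}`: a dichotomy for circuits with few NOT gates

The model is that of nonuniform randomised circuits (AND and OR gates of fan-in two, NOT gates)
for the graphs on `n` vertices; `s k ≥ k` is an arbitrary gap: the circuits accept the graphs with
a clique of `s k` vertices and reject those with no clique of `k` vertices. `CliqueAll s` says
that there are such circuits of size `f k * n ^ o(k)`, error at most `1 / 3`. `CliqueOn s t W` says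
that there are such circuits with at most `t k n` NOT gates if one circuit has to be right only
on a window of `W k n` consecutive numbers of edges.

* For `W ≤ 2 ^ t` the bounded question is equivalent to the unbounded one.
* For `W ≥ 2 ^ ((1 + ε) t)`, `W ≥ n ^ ε`, it has a negative answer, on each window below `n² / 25`,
  and the circuits are right with probability less than `1 / 2 + n ^ (-α)` for a graph of the
  window.
* For all graphs and `⌊γ log₂ n⌋` NOT gates: the answer is negative if `γ < 2`; for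
  `γ ≥ 2` it is the answer of the unbounded question.
-/

set_option autoImplicit false

namespace Pool.Agent.Results.MP_678664_lc.NotGateDichotomy

open Filter Pool.Agent.H540R2 Pool.Agent.W2helper86.KQ

theorem result (s : ℕ → ℕ) (hs : ∀ k, k ≤ s k) :
    (∀ t W : ℕ → ℕ → ℕ, (∀ k n, 1 ≤ W k n) → (∀ k n, 2 ≤ n → W k n ≤ 2 ^ t k n) →
      (CliqueOn s t W ↔ CliqueAll s)) ∧
    (∀ ε : ℝ, 0 < ε → ∀ (f : ℕ → ℕ) (g : ℕ → ℝ),
      Tendsto (fun k : ℕ => g k / k) atTop (nhds 0) →
      ∀ᶠ k : ℕ in atTop, ∃ α : ℝ, 0 < α ∧ ∀ᶠ n : ℕ in atTop, ∀ t W m : ℕ,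
        (n : ℝ) ^ ε ≤ W → W ≤ n ^ 2 → (2 : ℝ) ^ ((1 + ε) * t) ≤ W → 25 * m ≤ n ^ 2 →
        ∀ R : RandCircuit (n.choose 2),
          (∀ o, (R.C o).nots ≤ t ∧ ((R.C o).size : ℝ) ≤ f k * (n : ℝ) ^ g k) →
          ∃ x : Fin (n.choose 2) → Bool, m ≤ edges x ∧ edges x < m + W ∧
            R.prob (Right (s k) k x) < 1 / 2 + (n : ℝ) ^ (-α)) ∧
    (∀ γ : ℝ, 0 ≤ γ →
      (CliqueOn s (fun _ n => ⌊γ * Real.logb 2 n⌋₊) (fun _ n => n.choose 2 + 1) ↔
        2 ≤ γ ∧ CliqueAll s)) :=
  ⟨fun _ _ h1 h2 => on_iff h1 h2, fun ε hε f g hg => windows_gap ε hε s hs f g hg,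
    fun γ hγ => full_iff hs γ hγ⟩

end Pool.Agent.Results.MP_678664_lc.NotGateDichotomy
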