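import Pool.Agent.W2helper95.KC.Alt

/-!
# `k`-clique: lower bounds for random threshold circuits with few alternations

The circuits (`Net`) have linear threshold gates of any fan-in, with arbitrary real weights of any
sign, and OR gates of any fan-in. AND, OR, NOT and majority gates are special cases; a negation is
a use of a signal with a negative weight. The inputs are the edge flags of a graph with `n`
vertices. A random circuit (a probability distribution on circuits) decides with gap `δ` whether
the graph has a clique with `k` vertices.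

The parameters are the number `A` of the threshold gates, the number `s` of all gates, which
enters the first bound only through its logarithm, and the number `D` of the alternations: along
each increasing chain of graphs, at most `D` steps change the value of some signal which is used
with a negative weight.

`result`:

1. for each `k ≥ 3`, `(δ ^ (3 / 2 + ε) * n) ^ k ≤ c * (D + 1) ^ ((1 / 2 + ε) * k) * (A + 1) * L ^ e`
   with `L = log₂ (s + 2 + ⌈1 / δ⌉)`; here `e` depends on `k`, and `c` on `k` and `ε`;
2. for each `ε > 0` there is `α > 0` such that, if `g k / k` tends to zero, then for large `k` no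
   random circuits of size at most `f k * n ^ g k` with at most `n ^ (2 - ε)` alternations decide
   the `k`-clique problem for graphs with `n` vertices with gap `n ^ (-α)`, for all large `n`;
3. `D ≥ n (n + 1) / 2` is no restriction; one can take `D = 2 ^ t - 1` if at most `t` signals are
   used with a negative weight, and `D = t` if these signals are monotone or antitone.

The proof splits the vertices into groups and uses many edge-disjoint complete `k`-partite blocks
(from a set without arithmetic progressions of length three) such that each `k`-clique of the union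
is in one block. The blocks are filled one after the other by random complete `(k - 1)`-partite
graphs, which gives an increasing chain of graphs without `k`-clique. For a block where the
signals with a negative weight do not change, the circuit acts on the block as a monotone circuit,
and an approximation method of Razborov type applies, in which the approximators of the threshold
gates are unions of few cliques.
-/

set_option autoImplicit false

namespace Pool.Agent.Results.MP_678664_lc.ThresholdAlternations

open Filter
open Pool.Agent.W2helper95.TS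
open Pool.Agent.W2helper95.KC

open Classical in
/-- Some random threshold circuit decides with gap `δ` whether a graph with `n` vertices has a
clique with `k` vertices: for some `θ`, it accepts with probability at least `θ + δ` if there is
such a clique, and with probability at most `θ` if not, for all edge flags `x`. Each circuit which
occurs has at most `D` alternations (along each increasing chain of edge flags at most `D` steps
change a signal which is used with a negative weight), at most `A` threshold gates, and at most `s`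
gates in all. -/
def Solvable (k n : ℕ) (δ : ℝ) (D A s : ℕ) : Prop :=
  ∃ (Ω : Type) (_ : Fintype Ω) (p : Ω → ℝ) (C : Ω → Net (Sym2 (Fin n))),
    (∀ ω, 0 ≤ p ω) ∧ ∑ ω, p ω = 1 ∧
    (∃ θ : ℝ, ∀ x : Sym2 (Fin n) → Bool,
      (HasClique k x → θ + δ ≤ ∑ ω, p ω * (if (C ω).eval x = true then 1 else 0)) ∧
      (¬ HasClique k x → ∑ ω, p ω * (if (C ω).eval x = true then 1 else 0) ≤ θ)) ∧
    ∀ ω, Alternates (C ω) D ∧ {i : Fin (C ω).s | (C ω).IsThr i}.ncard ≤ A ∧ (C ω).s ≤ s

theorem dec_of {k n : ℕ} {δ : ℝ} {D A s : ℕ} (h : Solvable k n δ D A s) :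
    ∃ (Ω : Type) (_ : Fintype Ω) (p : Ω → ℝ) (C : Ω → Net (Sym2 (Fin n))),
      Dec k δ p C ∧ (∀ ω, AltN (C ω) D) ∧ (∀ ω, numThr (C ω) ≤ A) ∧ ∀ ω, (C ω).s ≤ s := by
  obtain ⟨Ω, i, p, C, hp, hp1, ⟨θ, hθ⟩, hC⟩ := h
  refine ⟨Ω, i, p, C, ⟨hp, hp1, θ, fun x => ⟨fun hx => (hθ x).1 (hasCl_iff.1 hx),
    fun hx => (hθ x).2 fun hx' => hx (hasCl_iff.2 hx')⟩⟩, fun ω => (hC ω).1.altN,
    fun ω => (hC ω).2.1, fun ω => (hC ω).2.2⟩

/-- Lower bounds for random threshold circuits with few alternations which decide the `k`-clique
problem. -/
theorem result :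
    (∀ k : ℕ, 3 ≤ k → ∃ e : ℕ, ∀ ε : ℝ, 0 < ε → ∃ c : ℝ, 0 < c ∧ ∀ (δ : ℝ) (n D A s : ℕ),
      0 < δ → δ ≤ 1 → Solvable k n δ D A s →
      (δ ^ (3 / 2 + ε) * (n : ℝ)) ^ k ≤ c * ((D : ℝ) + 1) ^ ((1 / 2 + ε) * k) *
        (((A : ℝ) + 1) * (Nat.log 2 (s + 2 + ⌈1 / δ⌉₊) : ℝ) ^ e)) ∧
    (∀ ε : ℝ, 0 < ε → ∃ α : ℝ, 0 < α ∧ ∀ f g : ℕ → ℝ,
      Tendsto (fun k : ℕ => g k / k) atTop (nhds 0) →
      ∀ᶠ k : ℕ in atTop, ∀ᶠ n : ℕ in atTop, ∀ D s : ℕ, (D : ℝ) ≤ (n : ℝ) ^ (2 - ε) →
        (s : ℝ) ≤ f k * (n : ℝ) ^ g k → ¬ Solvable k n ((n : ℝ) ^ (-α)) D s s) ∧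
    (∀ (n : ℕ) (C : Net (Sym2 (Fin n))), Alternates C (n * (n + 1) / 2)) ∧
    (∀ (I : Type) (C : Net I) (t : ℕ), {a : Fin C.s | C.UsedNeg a}.ncard ≤ t →
      Alternates C (2 ^ t - 1) ∧
      ((∀ a, C.UsedNeg a →
        (∀ y z : I → Bool, (∀ e, y e = true → z e = true) →
          C.val y a = true → C.val z a = true) ∨
        (∀ y z : I → Bool, (∀ e, y e = true → z e = true) →
          C.val z a = true → C.val y a = true)) →
        Alternates C t)) := by
  refine ⟨?_, ?_, ?_, ?_⟩
  · intro k hk
    obtain ⟨e, h⟩ := fin_ineq hk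
    refine ⟨e, fun ε hε => ?_⟩
    obtain ⟨c, hc, h⟩ := h ε hε
    refine ⟨c, hc, fun δ n D A s hδ hδ1 hsol => ?_⟩
    obtain ⟨Ω, _, p, C, h1, h2, h3, h4⟩ := dec_of hsol
    exact h δ n D A s Ω p C hδ hδ1 h1 h2 h3 h4
  · intro ε hε
    obtain ⟨α, hα, h⟩ := asym hε
    refine ⟨α, hα, fun f g hg => ?_⟩
    filter_upwards [h f g hg] with k hk
    filter_upwards [hk] with n hn
    intro D s hD hs hsol
    obtain ⟨Ω, _, p, C, h1, h2, h3, h4⟩ := dec_of hsol
    exact hn D s Ω p C hD hs h1 h2 h4
  · intro n C
    have h := alternates_card C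
    rw [Sym2.card, Fintype.card_fin, Nat.choose_two_right, Nat.add_sub_cancel, mul_comm] at h
    exact h
  · intro I C t ht
    exact ⟨alternates_two_pow C ht, alternates_mono C ht⟩

end Pool.Agent.Results.MP_678664_lc.ThresholdAlternations
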